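import Pool.Agent.H36.TZ.Ex
import Pool.Agent.H83.ZU.Lim
import Pool.Agent.H83.TU.RX
import Pool.Agent.H83.TU.UB
import Pool.Agent.H89.ZN.Def

/-!
# [H36 TZ Cur] THEOREM Z (MP_e49dc9_ag): a field of transcendence degree two gives curves `C` with `p.C = 0`

`R` is an additive function on divisors which is nonnegative on the effective and positive on the ample ones (`RF hX hg F`).

`cur_zero`: if for every `M` there is `t ≥ 1` with `M a ^ 2 R(A') ≤ a ^ 3 t C₄` for `a` large and all `A' = A ^ C₀ * ∏ G i ^ m i`,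
`|m i - s p i| ≤ 1`, `s = ⌊a t⌋`, then `R(p) = 0`: `R(A') = s R(p) + O(1)`, so `M R(p) ≤ C₄` for all `M`.

`fld_cur` (case `T(p,p,A) > 0`): it is enough that for every `M` there is a divisor `D = ∏ G i ^ n i`, `|n i - t p i| ≤ B`, `t ≥ 1`,
`0 < T(p,p,D) ≤ C / t`, with `M a ^ 2 b R(A') ≤ vol (D ^ a * A' ^ b)` for all ample `A'`: the bound for the volume of `V = D ^ a * A'` is
`vol_p` with `μ = T(p,p,D) / t`.

`fld_cur0` (case `T(p,p,.) = 0`): the same with `D = A ^ e * ∏ G i ^ n i` ample: `vol V = T(V,V,V) / 6` and `cube` for the classes `A, G i`.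
`cur_of`, `cur_of0`: the conclusion `Cur hX hg G p` of `H89/ZN/Def.lean`.
-/

set_option autoImplicit false

namespace Pool.Agent.H36.TZ

open Pool.Agent.H54.RV Pool.Agent.H83.TU Pool.Agent.H83.TK Pool.Agent.H24.VP Pool.Agent.H39.TQ Pool.Agent.H36.TQ
  Pool.Agent.H24.TV Pool.Agent.H83.ZU Filter Topology

variable {k K : Type} [Field k] [Field K] [Algebra k K] {X : Mod k K}
  {T : Cart X → Cart X → Cart X → ℝ} {l : Cart X → ℝ} {c : ℝ} {r : ℕ} {G : Fin r → Cart X} {p : Fin r → ℝ} {A : Cart X}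

theorem W_R {R : Cart X → ℤ} (hR : RFun R) (C : ℕ) (m : Fin r → ℤ) (x : ℝ) :
    (R (A ^ C * ∏ i, G i ^ m i) : ℝ) = x * ∑ i, p i * (R (G i) : ℝ) +
      (C * R A + ∑ i, ((m i : ℝ) - x * p i) * R (G i)) := by
  have h1 : R (∏ i, G i ^ m i) = ∑ i, m i * R (G i) := by
    rw [← rHom_apply hR, map_prod, toAdd_prod]
    refine Finset.sum_congr rfl fun i _ => ?_
    rw [rHom_apply hR, rfun_zpow hR]
  have h2 : R (A ^ C) = C * R A := by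
    rw [← zpow_natCast, rfun_zpow hR]
  rw [hR.add, h1, h2]
  push_cast
  rw [Finset.mul_sum]
  have e : ∑ i, ((m i : ℝ) - x * p i) * (R (G i) : ℝ) =
      ∑ i, (m i : ℝ) * (R (G i) : ℝ) - ∑ i, x * (p i * (R (G i) : ℝ)) := by
    rw [← Finset.sum_sub_distrib]
    exact Finset.sum_congr rfl fun i _ => by ring
  rw [e]
  ring

theorem cur_zero (hp : Rn G p A) {R : Cart X → ℤ} (hR : RFun R) {C₄ : ℝ} {C₀ : ℕ}
    (h1 : ∀ M : ℝ, 0 ≤ M → ∃ t : ℝ, 1 ≤ t ∧ ∀ᶠ a : ℕ in atTop, ∀ m : Fin r → ℤ,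
      (∀ i, |(m i : ℝ) - (⌊a * t⌋₊ : ℕ) * p i| ≤ 1) →
        M * a ^ 2 * R (A ^ C₀ * ∏ i, G i ^ m i) ≤ a ^ 3 * t * C₄) :
    ∑ i, p i * (R (G i) : ℝ) = 0 := by
  obtain ⟨g, hg⟩ : ∃ g, g = ∑ i, p i * (R (G i) : ℝ) := ⟨_, rfl⟩
  obtain ⟨K', hK'⟩ : ∃ K', K' = C₀ * |(R A : ℝ)| + ∑ i, |(R (G i) : ℝ)| := ⟨_, rfl⟩
  have hK0 : 0 ≤ K' := by rw [hK']; positivity
  have hlow : ∀ (s : ℕ) (m : Fin r → ℤ), (∀ i, |(m i : ℝ) - s * p i| ≤ 1) →
      s * g - K' ≤ R (A ^ C₀ * ∏ i, G i ^ m i) := by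
    intro s m hm
    rw [W_R (p := p) hR C₀ m s, ← hg]
    have e1 := (abs_le.1 (err_le hm fun i => (R (G i) : ℝ))).1
    have e2 : -(C₀ * |(R A : ℝ)|) ≤ C₀ * (R A : ℝ) := by
      rw [← mul_neg]
      exact mul_le_mul_of_nonneg_left (neg_abs_le _) (Nat.cast_nonneg _)
    linarith
  rw [← hg]
  apply le_antisymm
  · by_contra hcon
    push Not at hcon
    obtain ⟨M, hM⟩ : ∃ M, M = (2 * |C₄| + 1) / g := ⟨_, rfl⟩
    have hM0 : 0 ≤ M := by rw [hM]; positivity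
    have hMg : M * g = 2 * |C₄| + 1 := by rw [hM]; field_simp
    obtain ⟨t, ht, hev⟩ := h1 M hM0
    obtain ⟨n, hn⟩ := exists_nat_gt (M * (g + K'))
    obtain ⟨a, ⟨ha1, ha2⟩, ha3⟩ := ((hev.and (eventually_ge_atTop n)).and (eventually_ge_atTop 1)).exists
    obtain ⟨m, hm⟩ := exists_m p ⌊a * t⌋₊
    have h2 := ha1 m hm
    have h3 := hlow _ m hm
    have haR : (1 : ℝ) ≤ a := by exact_mod_cast ha3
    have hna : (n : ℝ) ≤ a := by exact_mod_cast ha2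
    have h4 := Nat.lt_floor_add_one ((a : ℝ) * t)
    have h5 : (a * t - 1) * g - K' ≤ R (A ^ C₀ * ∏ i, G i ^ m i) := by
      have : (a * t - 1) * g ≤ (⌊a * t⌋₊ : ℕ) * g := mul_le_mul_of_nonneg_right (by linarith) hcon.le
      linarith
    have h6 : M * ((a * t - 1) * g - K') ≤ M * R (A ^ C₀ * ∏ i, G i ^ m i) := mul_le_mul_of_nonneg_left h5 hM0
    have h7 : M * R (A ^ C₀ * ∏ i, G i ^ m i) ≤ a * t * C₄ := by
      have h8 : (a : ℝ) ^ 2 * (M * R (A ^ C₀ * ∏ i, G i ^ m i)) ≤ (a : ℝ) ^ 2 * (a * t * C₄) := by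
        calc (a : ℝ) ^ 2 * (M * R (A ^ C₀ * ∏ i, G i ^ m i)) = M * a ^ 2 * R (A ^ C₀ * ∏ i, G i ^ m i) := by ring
          _ ≤ _ := h2
          _ = _ := by ring
      exact le_of_mul_le_mul_left h8 (by positivity)
    have hat : (1 : ℝ) ≤ a * t := one_le_mul_of_one_le_of_one_le haR ht
    have h9 : a * t * C₄ ≤ a * t * |C₄| := mul_le_mul_of_nonneg_left (le_abs_self _) (by linarith)
    have h10 : M * ((a * t - 1) * g - K') = a * t * (M * g) - M * (g + K') := by ring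
    rw [h10, hMg] at h6
    have h11 : a ≤ a * t := le_mul_of_one_le_right (by linarith) ht
    have h12 : 0 ≤ a * t * |C₄| := by positivity
    have h13 : a * t * (2 * |C₄| + 1) = 2 * (a * t * |C₄|) + a * t := by ring
    rw [h13] at h6
    linarith
  · obtain ⟨C, hC⟩ := hp.amp
    refine lin_lim (y := C * |(R A : ℝ)| + ∑ i, |(R (G i) : ℝ)|) fun n => ?_
    obtain ⟨m, hm⟩ := exists_m p n
    have h2 : (0 : ℝ) < R (A ^ C * ∏ i, G i ^ m i) := by exact_mod_cast hR.amp _ (hC n m hm)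
    rw [W_R (p := p) hR C m n, ← hg] at h2
    have e1 := (abs_le.1 (err_le hm fun i => (R (G i) : ℝ))).2
    have e2 : C * (R A : ℝ) ≤ C * |(R A : ℝ)| := mul_le_mul_of_nonneg_left (le_abs_self _) (Nat.cast_nonneg _)
    linarith

/-- bounded errors, bound `B` -/
theorem err_leB {n : Fin r → ℤ} {x B : ℝ} (hn : ∀ i, |(n i : ℝ) - x * p i| ≤ B) (F : Fin r → ℝ) :
    |∑ i, ((n i : ℝ) - x * p i) * F i| ≤ B * ∑ i, |F i| := by
  rw [Finset.mul_sum]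
  refine (Finset.abs_sum_le_sum_abs _ _).trans (Finset.sum_le_sum fun i _ => ?_)
  rw [abs_mul]
  exact mul_le_mul_of_nonneg_right (hn i) (abs_nonneg _)

theorem fld_cur [CharZero k] [T0Space X.P] (h : Hyp X) (hr : RR T l c) (hp : Rn G p A) (h3 : p3 T G p = 0)
    (ha : 0 < pz T G p A) {R : Cart X → ℤ} (hR : RFun R) {B C : ℝ} (hB : 0 ≤ B)
    (h1 : ∀ M : ℝ, ∃ (n : Fin r → ℤ) (t : ℝ), 1 ≤ t ∧ (∀ i, |(n i : ℝ) - t * p i| ≤ B) ∧
      0 < pz T G p (∏ i, G i ^ n i) ∧ t * pz T G p (∏ i, G i ^ n i) ≤ C ∧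
      ∀ A' : Cart X, Ample A' → ∀ a b : ℕ, 1 ≤ a → 1 ≤ b →
        M * a ^ 2 * b * R A' ≤ vol ((∏ i, G i ^ n i) ^ a * A' ^ b)) :
    ∑ i, p i * (R (G i) : ℝ) = 0 := by
  have ht := hr.tri
  obtain ⟨C₀, hC₀⟩ := hp.amp
  obtain ⟨α, hα⟩ : ∃ α, α = pz T G p A := ⟨_, rfl⟩
  obtain ⟨β, hβ⟩ : ∃ β, β = pT T G p A A := ⟨_, rfl⟩
  obtain ⟨κ, hκ⟩ : ∃ κ, κ = T A A A := ⟨_, rfl⟩
  obtain ⟨K₁, hK₁⟩ : ∃ K₁, K₁ = ∑ i, |pT T G p (G i) A| := ⟨_, rfl⟩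
  obtain ⟨K₂, hK₂⟩ : ∃ K₂, K₂ = ∑ i, |T (G i) A A| := ⟨_, rfl⟩
  obtain ⟨K₀, hK₀⟩ : ∃ K₀, K₀ = ∑ i, |pz T G p (G i)| := ⟨_, rfl⟩
  have hK₀0 : 0 ≤ K₀ := by rw [hK₀]; positivity
  have hK₁0 : 0 ≤ K₁ := by rw [hK₁]; positivity
  have hK₂0 : 0 ≤ K₂ := by rw [hK₂]; positivity
  have hβ0 : 0 ≤ β := by rw [hβ]; exact pT_amp h hr hp hp.hA hp.hA
  have hκ0 : 0 < κ := by rw [hκ]; exact pos_amp h hr hp.hA hp.hA hp.hA
  obtain ⟨L₁, hL₁⟩ : ∃ L₁, L₁ = 2 * α + (B * K₁ + C₀ * β + K₁) := ⟨_, rfl⟩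
  obtain ⟨L₂, hL₂⟩ : ∃ L₂, L₂ = 2 * β + (B * K₂ + C₀ * κ + K₂) := ⟨_, rfl⟩
  rw [← hα] at ha
  have hL₁0 : 0 ≤ L₁ := by rw [hL₁]; positivity
  have hL₂0 : 0 ≤ L₂ := by rw [hL₂]; positivity
  obtain ⟨C₂, hC₂⟩ : ∃ C₂, C₂ = 2 + 2 * L₁ + |C| * L₂ := ⟨_, rfl⟩
  have hC₂0 : 0 ≤ C₂ := by rw [hC₂]; positivity
  refine cur_zero hp hR (C₀ := C₀) (C₄ := |C| * C₂ ^ 3 / (54 * α ^ 2)) fun M hM => ?_
  obtain ⟨n, t, ht1, hn, hz, hzC, hvol⟩ := h1 M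
  have ht0 : 0 < t := by linarith
  obtain ⟨D, hD⟩ : ∃ D, D = ∏ i, G i ^ n i := ⟨_, rfl⟩
  rw [← hD] at hz hzC hvol
  obtain ⟨z, hzd⟩ : ∃ z, z = pz T G p D := ⟨_, rfl⟩
  rw [← hzd] at hz hzC
  have hzC' : t * z ≤ |C| := hzC.trans (le_abs_self _)
  refine ⟨t, ht1, ?_⟩
  obtain ⟨a₀, ha₀⟩ := exists_nat_gt ((C₀ * α + K₀) / z)
  filter_upwards [eventually_ge_atTop a₀, eventually_ge_atTop 1] with a ha1 ha2 m hm
  rw [div_lt_iff₀ hz] at ha₀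
  have haR : (1 : ℝ) ≤ a := by exact_mod_cast ha2
  have ha0 : (a₀ : ℝ) ≤ a := by exact_mod_cast ha1
  have hs0 : (0 : ℝ) ≤ (⌊a * t⌋₊ : ℕ) := Nat.cast_nonneg _
  have hs : ((⌊a * t⌋₊ : ℕ) : ℝ) ≤ a * t := Nat.floor_le (by positivity)
  obtain ⟨s, hsd⟩ : ∃ s : ℕ, s = ⌊a * t⌋₊ := ⟨_, rfl⟩
  rw [← hsd] at hm hs hs0
  obtain ⟨A', hA'⟩ : ∃ A', A' = A ^ C₀ * ∏ i, G i ^ m i := ⟨_, rfl⟩
  have hA'a : Ample A' := by rw [hA']; exact hC₀ s m hm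
  have hv := hvol A' hA'a a 1 ha2 le_rfl
  rw [pow_one] at hv
  rw [← hA']
  obtain ⟨V, hV⟩ : ∃ V, V = D ^ a * A' := ⟨_, rfl⟩
  rw [← hV] at hv
  have hat : (1 : ℝ) ≤ a * t := one_le_mul_of_one_le_of_one_le haR ht1
  -- `T(p,p,V)`
  have e0 : pz T G p V ≤ 2 * (a * z) := by
    have q1 : pz T G p A' ≤ C₀ * α + K₀ := by
      rw [hA', W_pz ht C₀ m s, h3, mul_zero, zero_add, ← hα, hK₀]
      have := (abs_le.1 (err_le hm fun i => pz T G p (G i))).2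
      linarith
    have q2 : (a₀ : ℝ) * z ≤ a * z := mul_le_mul_of_nonneg_right ha0 hz.le
    rw [hV, pz_mul ht, pz_pow ht, ← hzd]
    linarith
  -- `T(p,V,A)`
  have e1 : pT T G p V A ≤ a * t * L₁ := by
    have q1 : pT T G p A' A ≤ a * t * α + C₀ * β + K₁ := by
      rw [hA', W_pT ht C₀ m s, ← hα, ← hβ, hK₁]
      have w1 := (abs_le.1 (err_le hm fun i => pT T G p (G i) A)).2
      have w2 : (s : ℝ) * α ≤ a * t * α := mul_le_mul_of_nonneg_right hs ha.le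
      linarith
    have q2 : pT T G p D A ≤ t * α + B * K₁ := by
      have w0 := W_pT (A := A) (p := p) (G := G) ht 0 n t A
      rw [pow_zero, one_mul, ← hD, Nat.cast_zero, zero_mul, zero_add, ← hα] at w0
      have w1 := (abs_le.1 (err_leB hn fun i => pT T G p (G i) A)).2
      rw [w0, hK₁]
      linarith
    rw [hV, pT_mul ht, pT_pow ht, hL₁]
    have q3 : a * pT T G p D A ≤ a * (t * α + B * K₁) := mul_le_mul_of_nonneg_left q2 (by linarith)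
    have q4 : a * (B * K₁) ≤ a * t * (B * K₁) :=
      mul_le_mul_of_nonneg_right (le_mul_of_one_le_right (by linarith) ht1) (by positivity)
    have q5 : C₀ * β + K₁ ≤ a * t * (C₀ * β + K₁) := le_mul_of_one_le_left (by positivity) hat
    linarith
  have e2 : T V A A ≤ a * t * L₂ := by
    have q1 : T A' A A ≤ a * t * β + C₀ * κ + K₂ := by
      rw [hA', W_T (p := p) ht C₀ m s, ← hκ, ← hβ, hK₂]
      have w1 := (abs_le.1 (err_le hm fun i => T (G i) A A)).2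
      have w2 : (s : ℝ) * β ≤ a * t * β := mul_le_mul_of_nonneg_right hs hβ0
      linarith
    have q2 : T D A A ≤ t * β + B * K₂ := by
      have w0 := W_T (A := A) (p := p) (G := G) ht 0 n t A A
      rw [pow_zero, one_mul, ← hD, Nat.cast_zero, zero_mul, zero_add, ← hβ] at w0
      have w1 := (abs_le.1 (err_leB hn fun i => T (G i) A A)).2
      rw [w0, hK₂]
      linarith
    rw [hV, ht.add, ht.pow, hL₂]
    have q3 : a * T D A A ≤ a * (t * β + B * K₂) := mul_le_mul_of_nonneg_left q2 (by linarith)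
    have q4 : a * (B * K₂) ≤ a * t * (B * K₂) :=
      mul_le_mul_of_nonneg_right (le_mul_of_one_le_right (by linarith) ht1) (by positivity)
    have q5 : C₀ * κ + K₂ ≤ a * t * (C₀ * κ + K₂) := le_mul_of_one_le_left (by positivity) hat
    linarith
  obtain ⟨μ, hμ⟩ : ∃ μ, μ = z / t := ⟨_, rfl⟩
  have hμ0 : 0 < μ := by rw [hμ]; positivity
  have hμt : μ * t = z := by rw [hμ]; field_simp
  have hμC : μ ≤ |C| := by
    have : μ * 1 ≤ μ * t := mul_le_mul_of_nonneg_left ht1 hμ0.le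
    have : z ≤ t * z := le_mul_of_one_le_left hz.le ht1
    linarith
  have e3 : pz T G p V + 2 * μ * pT T G p V A + μ ^ 2 * T V A A ≤ a * z * C₂ := by
    have q1 : 2 * μ * pT T G p V A ≤ 2 * μ * (a * t * L₁) := mul_le_mul_of_nonneg_left e1 (by positivity)
    have q2 : μ ^ 2 * T V A A ≤ μ ^ 2 * (a * t * L₂) := mul_le_mul_of_nonneg_left e2 (by positivity)
    have q3 : 2 * μ * (a * t * L₁) = a * z * (2 * L₁) := by rw [← hμt]; ring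
    have q4 : μ ^ 2 * (a * t * L₂) = a * z * (μ * L₂) := by rw [← hμt]; ring
    have q5 : a * z * (μ * L₂) ≤ a * z * (|C| * L₂) :=
      mul_le_mul_of_nonneg_left (mul_le_mul_of_nonneg_right hμC hL₂0) (by positivity)
    rw [hC₂]
    linarith
  have e4 := vol_p h hr hp h3 (by rw [← hα]; exact ha) hμ0 V
  rw [← hα, ← hβ, ← hκ] at e4
  have hden : 3 * μ * α ≤ 3 * μ * α + 3 * μ ^ 2 * β + μ ^ 3 * κ := by
    have : 0 ≤ 3 * μ ^ 2 * β := by positivity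
    have : 0 ≤ μ ^ 3 * κ := by positivity
    linarith
  have e5 : vol V ≤ (a * z * C₂) ^ 3 / (6 * (3 * μ * α) ^ 2) := by
    refine e4.trans ?_
    apply div_le_div₀ (by positivity)
    · apply pow_le_pow_left₀ (le_max_left _ _)
      exact max_le (by positivity) e3
    · positivity
    · apply mul_le_mul_of_nonneg_left _ (by norm_num)
      exact pow_le_pow_left₀ (by positivity) hden 2
  have e6 : (a * z * C₂) ^ 3 / (6 * (3 * μ * α) ^ 2) = a ^ 3 * t * ((t * z) * C₂ ^ 3 / (54 * α ^ 2)) := by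
    rw [hμ]
    field_simp
    ring
  have e7 : a ^ 3 * t * ((t * z) * C₂ ^ 3 / (54 * α ^ 2)) ≤ a ^ 3 * t * (|C| * C₂ ^ 3 / (54 * α ^ 2)) := by
    apply mul_le_mul_of_nonneg_left _ (by positivity)
    apply div_le_div_of_nonneg_right _ (by positivity)
    exact mul_le_mul_of_nonneg_right hzC' (by positivity)
  rw [e6] at e5
  have e8 : M * a ^ 2 * (1 : ℕ) * R A' = M * a ^ 2 * R A' := by push_cast; ring
  rw [e8] at hv
  linarith

theorem pT_cons (ht : Tri T) (U V : Cart X) :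
    pT T (Fin.cons A G : Fin (r + 1) → Cart X) (Fin.cons 0 p : Fin (r + 1) → ℝ) U V = pT T G p U V := by
  unfold pT
  rw [Fin.sum_univ_succ]
  simp

theorem pz_cons (ht : Tri T) (U : Cart X) :
    pz T (Fin.cons A G : Fin (r + 1) → Cart X) (Fin.cons 0 p : Fin (r + 1) → ℝ) U = pz T G p U := by
  unfold pz
  rw [Fin.sum_univ_succ]
  simp only [Fin.cons_zero, Fin.cons_succ, zero_mul, zero_add, pT_cons ht]

theorem p3_cons (ht : Tri T) :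
    p3 T (Fin.cons A G : Fin (r + 1) → Cart X) (Fin.cons 0 p : Fin (r + 1) → ℝ) = p3 T G p := by
  unfold p3
  rw [Fin.sum_univ_succ]
  simp only [Fin.cons_zero, Fin.cons_succ, zero_mul, zero_add, pz_cons ht]

/-- `T(V,V,V)` if `T(p,p,.) = 0` -/
theorem cube0 (ht : Tri T) (hz : ∀ U, pz T G p U = 0) (A : Cart X) : ∃ C C' : ℝ, 0 ≤ C ∧ 0 ≤ C' ∧
    ∀ (δ : ℝ) (N : ℕ) (n : Fin r → ℤ) (x : ℝ), 0 ≤ x → (N : ℝ) ≤ δ → (∀ i, |(n i : ℝ) - x * p i| ≤ δ) →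
      T (A ^ N * ∏ i, G i ^ n i) (A ^ N * ∏ i, G i ^ n i) (A ^ N * ∏ i, G i ^ n i) ≤ C * δ ^ 2 * x + C' * δ ^ 3 := by
  have h3 : p3 T G p = 0 := by
    unfold p3
    exact Finset.sum_eq_zero fun i _ => by rw [hz, mul_zero]
  obtain ⟨C, C', hC, hC', hc⟩ := cube (G := (Fin.cons A G : Fin (r + 1) → Cart X))
    (p := (Fin.cons 0 p : Fin (r + 1) → ℝ)) ht (by rw [p3_cons ht]; exact h3)
  refine ⟨C, C', hC, hC', fun δ N n x hx hN hn => ?_⟩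
  have hV : ∏ i : Fin (r + 1), (Fin.cons A G : Fin (r + 1) → Cart X) i ^ (Fin.cons (N : ℤ) n : Fin (r + 1) → ℤ) i =
      A ^ N * ∏ i, G i ^ n i := by
    rw [Fin.prod_univ_succ]
    simp
  have h1 := hc δ (Fin.cons (N : ℤ) n : Fin (r + 1) → ℤ) x ((Nat.cast_nonneg N).trans hN) hx (fun i => by
    refine Fin.cases ?_ (fun i => ?_) i
    · simp only [Fin.cons_zero, mul_zero, sub_zero]
      rw [Int.cast_natCast, abs_of_nonneg (Nat.cast_nonneg N)]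
      exact hN
    · simp only [Fin.cons_succ]
      exact hn i)
  rw [hV, pz_cons ht, hz, mul_zero, sub_zero] at h1
  exact (le_abs_self _).trans h1

theorem fld_cur0 [CharZero k] [T0Space X.P] (h : Hyp X) (hr : RR T l c) (hp : Rn G p A) (hz : ∀ U, pz T G p U = 0)
    {R : Cart X → ℤ} (hR : RFun R) {B : ℝ} (hB : 0 ≤ B) (e : ℕ)
    (h1 : ∀ M : ℝ, ∃ (n : Fin r → ℤ) (t : ℝ), 1 ≤ t ∧ (∀ i, |(n i : ℝ) - t * p i| ≤ B) ∧
      Ample (A ^ e * ∏ i, G i ^ n i) ∧ ∀ A' : Cart X, Ample A' → ∀ a b : ℕ, 1 ≤ a → 1 ≤ b →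
        M * a ^ 2 * b * R A' ≤ vol ((A ^ e * ∏ i, G i ^ n i) ^ a * A' ^ b)) :
    ∑ i, p i * (R (G i) : ℝ) = 0 := by
  have ht := hr.tri
  obtain ⟨C₀, hC₀⟩ := hp.amp
  obtain ⟨C, C', hC, hC', hcube⟩ := cube0 ht hz A
  obtain ⟨Q, hQ⟩ : ∃ Q : ℝ, Q = e + C₀ + B + 1 := ⟨_, rfl⟩
  have he0 : (0 : ℝ) ≤ e := Nat.cast_nonneg _
  have hC₀0 : (0 : ℝ) ≤ C₀ := Nat.cast_nonneg _
  have hQ0 : 0 ≤ Q := by rw [hQ]; positivity
  refine cur_zero hp hR (C₀ := C₀) (C₄ := (2 * (C * Q ^ 2) + C' * Q ^ 3) / 6) fun M hM => ?_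
  obtain ⟨n, t, ht1, hn, hD, hvol⟩ := h1 M
  have ht0 : 0 < t := by linarith
  refine ⟨t, ht1, ?_⟩
  filter_upwards [eventually_ge_atTop 1] with a ha2 m hm
  have haR : (1 : ℝ) ≤ a := by exact_mod_cast ha2
  obtain ⟨s, hsd⟩ : ∃ s : ℕ, s = ⌊a * t⌋₊ := ⟨_, rfl⟩
  have hs : ((⌊a * t⌋₊ : ℕ) : ℝ) ≤ a * t := Nat.floor_le (by positivity)
  rw [← hsd] at hm hs
  have hs0 : (0 : ℝ) ≤ s := Nat.cast_nonneg _
  have hA'a : Ample (A ^ C₀ * ∏ i, G i ^ m i) := hC₀ s m hm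
  have hv := hvol _ hA'a a 1 ha2 le_rfl
  rw [pow_one] at hv
  have hV : (A ^ e * ∏ i, G i ^ n i) ^ a * (A ^ C₀ * ∏ i, G i ^ m i) =
      A ^ (e * a + C₀) * ∏ i, G i ^ (n i * a + m i) := by
    simp only [zpow_add, zpow_mul, zpow_natCast]
    rw [Finset.prod_mul_distrib, Finset.prod_pow, mul_pow, pow_add, pow_mul]
    exact mul_mul_mul_comm _ _ _ _
  have hVa : Ample ((A ^ e * ∏ i, G i ^ n i) ^ a * (A ^ C₀ * ∏ i, G i ^ m i)) :=
    ample_mul h.var _ _ (ample_pow _ a ha2 hD) hA'a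
  rw [vol_eq hr hVa, hV] at hv
  have h2 := hcube (a * Q) (e * a + C₀) (fun i => n i * a + m i) (a * t + s) (by positivity) (by
    rw [hQ]
    push_cast
    have q1 : (C₀ : ℝ) ≤ a * C₀ := le_mul_of_one_le_left hC₀0 haR
    have q2 : 0 ≤ a * B := by positivity
    have q3 : a * (e + C₀ + B + 1) = e * a + a * C₀ + a * B + a := by ring
    linarith) (fun i => by
    rw [hQ]
    push_cast
    have q1 : (n i : ℝ) * a + m i - (a * t + s) * p i = a * (n i - t * p i) + (m i - s * p i) := by ring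
    rw [q1]
    refine (abs_add_le _ _).trans ?_
    rw [abs_mul, abs_of_nonneg (by linarith : (0 : ℝ) ≤ a)]
    have q2 : a * |(n i : ℝ) - t * p i| ≤ a * B := mul_le_mul_of_nonneg_left (hn i) (by linarith)
    have q3 := hm i
    have q4 : 0 ≤ (a : ℝ) * e := by positivity
    have q5 : 0 ≤ (a : ℝ) * C₀ := by positivity
    have q6 : a * (e + C₀ + B + 1) = a * e + a * C₀ + a * B + a := by ring
    linarith)
  have h4 : C * (a * Q) ^ 2 * (a * t + s) + C' * (a * Q) ^ 3 ≤ a ^ 3 * t * (2 * (C * Q ^ 2) + C' * Q ^ 3) := by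
    have q1 : C * (a * Q) ^ 2 * (a * t + s) ≤ C * (a * Q) ^ 2 * (2 * (a * t)) :=
      mul_le_mul_of_nonneg_left (by linarith) (by positivity)
    have q2 : C' * (a * Q) ^ 3 * 1 ≤ C' * (a * Q) ^ 3 * t := mul_le_mul_of_nonneg_left ht1 (by positivity)
    have q3 : a ^ 3 * t * (2 * (C * Q ^ 2) + C' * Q ^ 3) =
        C * (a * Q) ^ 2 * (2 * (a * t)) + C' * (a * Q) ^ 3 * t := by ring
    linarith
  have e8 : M * a ^ 2 * (1 : ℕ) * R (A ^ C₀ * ∏ i, G i ^ m i) = M * a ^ 2 * R (A ^ C₀ * ∏ i, G i ^ m i) := by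
    push_cast
    ring
  rw [e8] at hv
  have e9 : a ^ 3 * t * ((2 * (C * Q ^ 2) + C' * Q ^ 3) / 6) = a ^ 3 * t * (2 * (C * Q ^ 2) + C' * Q ^ 3) / 6 := by
    ring
  rw [e9]
  linarith

open Pool.Agent.H89.ZN in
/-- `(F) => (c)`, case `T(p,p,A) > 0` -/
theorem cur_of [CharZero k] [T0Space X.P] (h : Hyp X) (hr : RR T l c) (hp : Rn G p A) (h3 : p3 T G p = 0)
    (ha : 0 < pz T G p A) {F : IntermediateField k K} (hF : Algebra.trdeg F K = 1) (hcl : Clo F) {B C : ℝ} (hB : 0 ≤ B)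
    (h1 : ∀ M : ℝ, ∃ (n : Fin r → ℤ) (t : ℝ), 1 ≤ t ∧ (∀ i, |(n i : ℝ) - t * p i| ≤ B) ∧
      0 < pz T G p (∏ i, G i ^ n i) ∧ t * pz T G p (∏ i, G i ^ n i) ≤ C ∧
      ∀ A' : Cart X, Ample A' → ∀ a b : ℕ, 1 ≤ a → 1 ≤ b →
        M * a ^ 2 * b * RF h.var h.gen F A' ≤ vol ((∏ i, G i ^ n i) ^ a * A' ^ b)) : Cur h.var h.gen G p :=
  ⟨F, hF, hcl, fld_cur h hr hp h3 ha (rfun_rf h.var h.gen (uf_all h.var) F hF) hB h1⟩

open Pool.Agent.H89.ZN in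
/-- `(F) => (c)`, case `T(p,p,.) = 0` -/
theorem cur_of0 [CharZero k] [T0Space X.P] (h : Hyp X) (hr : RR T l c) (hp : Rn G p A) (hz : ∀ U, pz T G p U = 0)
    {F : IntermediateField k K} (hF : Algebra.trdeg F K = 1) (hcl : Clo F) {B : ℝ} (hB : 0 ≤ B) (e : ℕ)
    (h1 : ∀ M : ℝ, ∃ (n : Fin r → ℤ) (t : ℝ), 1 ≤ t ∧ (∀ i, |(n i : ℝ) - t * p i| ≤ B) ∧
      Ample (A ^ e * ∏ i, G i ^ n i) ∧ ∀ A' : Cart X, Ample A' → ∀ a b : ℕ, 1 ≤ a → 1 ≤ b →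
        M * a ^ 2 * b * RF h.var h.gen F A' ≤ vol ((A ^ e * ∏ i, G i ^ n i) ^ a * A' ^ b)) : Cur h.var h.gen G p :=
  ⟨F, hF, hcl, fld_cur0 h hr hp hz (rfun_rf h.var h.gen (uf_all h.var) F hF) hB e h1⟩

end Pool.Agent.H36.TZ
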