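import Pool.Agent.H36.TZ.Hp
import Pool.Agent.H36.TQ.Str
import Pool.Agent.H32.TZ.Def

/-!
# [H36 TZ Ex] THEOREM Z (MP_e49dc9_ag), (EX): sections vanishing to high order along infinitely many surfaces give a pencil

`ex_fam`: `y` is an additive function on divisors, nonnegative on the effective ones, which depends on the numerical class only.  If
for every `ε > 0` there are `E`, `m` such that sections of `E` vanish to order at least `m + 1` along infinitely many prime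
surfaces `S`, `T(A,A,E) ≤ M (m + 1)` and `y E ≤ ε (m + 1)`, then `T(A,A,S) ≤ M` (finitely many classes) and `y S ≤ ε` is zero for
`ε` small: infinitely many numerically equal prime surfaces `C i` with `y (C i) = 0`.

`ex_mov`: the same with `Mov E u`, `c x ≤ h0 E 1`, `T(A,A,E) ≤ M x`, `y E ≤ ε x`.

`pen_z` (case `T(p,p,A) > 0`): `y = T(p,p,.)` and the Hodge index theorem at `p` give `Pen T G p`.
`pen_t` (case `T(p,p,.) = 0`): `y = T(p,A,.)` gives `T(p,U,C i) = 0` for all `U`.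
-/

set_option autoImplicit false

namespace Pool.Agent.H36.TZ

open Pool.Agent.H54.RV Pool.Agent.H83.TU Pool.Agent.H83.TK Pool.Agent.H24.VP Pool.Agent.H39.TQ Pool.Agent.H36.TQ
  Pool.Agent.H24.TV Pool.Agent.H32.TZ

variable {k K : Type} [Field k] [Field K] [Algebra k K] {X : Mod k K}
  {T : Cart X → Cart X → Cart X → ℝ} {l : Cart X → ℝ} {c : ℝ} {r : ℕ} {G : Fin r → Cart X} {p : Fin r → ℝ} {A : Cart X}

theorem min_pos {F : Set ℝ} (hF : F.Finite) : ∃ δ : ℝ, 0 < δ ∧ ∀ v ∈ F, 0 < v → δ ≤ v := by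
  by_cases hne : (F ∩ Set.Ioi 0).Nonempty
  · obtain ⟨δ, hδ, hmin⟩ := Set.exists_min_image (F ∩ Set.Ioi 0) id (hF.subset Set.inter_subset_left) hne
    exact ⟨δ, hδ.2, fun v hv h0 => hmin v ⟨hv, h0⟩⟩
  · refine ⟨1, one_pos, fun v hv h0 => ?_⟩
    exact absurd ⟨v, hv, h0⟩ hne

theorem ex_fam [CharZero k] [T0Space X.P] (h : Hyp X) (hr : RR T l c) {ρ : ℕ}
    (ν : Cart X →* Multiplicative (Fin ρ → ℤ)) (hν : ∀ D, ν D = 1 → NumZ D) (hA : Ample A)
    {y : Cart X → ℝ} (hadd : ∀ U V, y (U * V) = y U + y V) (heff : ∀ E, Effective E → 0 ≤ y E)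
    (hT : ∀ U V : Cart X, (∀ B B', T U B B' = T V B B') → y U = y V) (M : ℝ)
    (h1 : ∀ ε : ℝ, 0 < ε → ∃ (E : Cart X) (m : ℕ), ¬ StarT E m ∧ T A A E ≤ M * (m + 1) ∧ y E ≤ ε * (m + 1)) :
    ∃ C : ℕ → Cart X, Pfam T C ∧ y (C 0) = 0 := by
  classical
  have ht := hr.tri
  have hfin := cls_fin h hr ν hν hA M
  -- the values of `y` on these classes
  obtain ⟨g, hg⟩ : ∃ g : (Cart X → Cart X → ℝ) → ℝ, ∀ S : Cart X, g (fun U V => T S U V) = y S := by
    refine ⟨fun f => if hf : ∃ S : Cart X, f = fun U V => T S U V then y hf.choose else 0, fun S => ?_⟩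
    have hf : ∃ S' : Cart X, (fun U V => T S U V) = fun U V => T S' U V := ⟨S, rfl⟩
    simp only [dif_pos hf]
    apply hT
    intro B B'
    exact (congrFun (congrFun hf.choose_spec B) B').symm
  obtain ⟨δ, hδ, hmin⟩ := min_pos (hfin.image g)
  have hmin' : ∀ (P : PDiv X) (S : Cart X), SPr X P.η S → T A A S ≤ M → 0 < y S → δ ≤ y S := by
    intro P S hS hM hy
    exact hmin _ ⟨_, ⟨P, S, hS, hM, rfl⟩, hg S⟩ hy
  obtain ⟨E, m, hst, hAE, hyE⟩ := h1 (δ / 2) (by positivity)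
  have hy1 : y 1 = 0 := by
    have := hadd 1 1
    rw [mul_one] at this
    linarith
  have hypow : ∀ (U : Cart X) (n : ℕ), y (U ^ n) = n * y U := by
    intro U n
    induction n with
    | zero => rw [pow_zero, hy1]; simp
    | succ n ih => rw [pow_succ, hadd, ih]; push_cast; ring
  have hm1 : (0 : ℝ) < (m : ℝ) + 1 := by positivity
  have hinf : {η : X.P | ∃ P : PDiv X, P.η = η ∧ ∃ f : K, f ≠ 0 ∧ Sec E 1 f ∧
      (m : ℤ) < P.p.ord (f * E.eq P.η)}.Infinite := by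
    intro hf
    apply hst
    refine ⟨_, hf, fun P hP f hf0 hfE => ?_⟩
    by_contra hcon
    exact hP ⟨P, rfl, f, hf0, hfE, not_le.1 hcon⟩
  obtain ⟨C, hC, hQ⟩ := exists_pf h hr ν hν hA M (fun S => T A A S ≤ M ∧ y S = 0) (fun S hS => hS.1) hinf (by
    rintro η ⟨P, hP, f, hf, hfE, hord⟩
    refine ⟨P, hP, ?_⟩
    obtain ⟨S, hS⟩ := pdiv_spr h P
    refine ⟨S, hS, ?_⟩
    obtain ⟨n, E', hn, hE1, hE2⟩ := ord_split h hr E P hS hf hfE hord
    have hnm : (m : ℝ) + 1 ≤ n := by exact_mod_cast hn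
    have p0 := pos_prm h hr hA hA P hS
    have p1 : (m + 1) * T A A S ≤ (m + 1) * M := by
      have q1 := hE2 A A
      have q2 := nn_eff h hr (nf_ample h.var hA) hA hE1
      have q3 : (m + 1) * T A A S ≤ n * T A A S := mul_le_mul_of_nonneg_right hnm p0.le
      linarith
    have p2 : T A A S ≤ M := le_of_mul_le_mul_left p1 hm1
    refine ⟨p2, ?_⟩
    have p3 : y E = n * y S + y E' := by
      rw [← hypow, ← hadd]
      apply hT
      intro B B'
      rw [ht.add, ht.pow]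
      have := hE2 B B'
      rw [tri_rot ht B B' E, tri_rot ht B B' S, tri_rot ht B B' E'] at this
      exact this
    have p4 := heff _ hE1
    have p5 := heff _ hS.eff
    by_contra hne
    have p6 := hmin' P S hS p2 (lt_of_le_of_ne p5 (Ne.symm hne))
    have p7 : (m + 1) * y S ≤ n * y S := mul_le_mul_of_nonneg_right hnm p5
    have p8 : (m + 1) * y S ≤ (m + 1) * (δ / 2) := by linarith
    have p9 := le_of_mul_le_mul_left p8 hm1
    linarith)
  exact ⟨C, hC, (hQ 0).2⟩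

theorem ex_mov [CharZero k] [T0Space X.P] (h : Hyp X) (hr : RR T l c) {ρ : ℕ}
    (ν : Cart X →* Multiplicative (Fin ρ → ℤ)) (hν : ∀ D, ν D = 1 → NumZ D) (hA : Ample A)
    {y : Cart X → ℝ} (hadd : ∀ U V, y (U * V) = y U + y V) (heff : ∀ E, Effective E → 0 ≤ y E)
    (hT : ∀ U V : Cart X, (∀ B B', T U B B' = T V B B') → y U = y V) (u : ℕ) {cc M : ℝ} (hcc : 0 < cc)
    (h1 : ∀ ε x₀ : ℝ, 0 < ε → ∃ (E : Cart X) (x : ℝ), x₀ ≤ x ∧ Mov E u ∧ cc * x ≤ h0 E 1 ∧ T A A E ≤ M * x ∧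
      y E ≤ ε * x) :
    ∃ C : ℕ → Cart X, Pfam T C ∧ y (C 0) = 0 := by
  obtain ⟨B, hB⟩ : ∃ B : ℝ, B = 2 * (u + 1) / cc := ⟨_, rfl⟩
  have hB0 : 0 < B := by rw [hB]; positivity
  refine ex_fam h hr ν hν hA hadd heff hT (|M| * B) fun ε hε => ?_
  obtain ⟨E, x, hx, hmov, hh, hAE, hyE⟩ := h1 (ε / B) ((u + 2) / cc) (by positivity)
  have hx0 : 0 < x := lt_of_lt_of_le (by positivity) hx
  rw [div_le_iff₀ hcc] at hx
  have hh1 : u + 2 ≤ h0 E 1 := by
    have : (u : ℝ) + 2 ≤ h0 E 1 := by linarith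
    exact_mod_cast this
  obtain ⟨q, hq⟩ : ∃ q, q = (h0 E 1 - 1) / (u + 1) := ⟨_, rfl⟩
  have hq1 : 1 ≤ q := by
    rw [hq, Nat.le_div_iff_mul_le (by omega)]
    omega
  have hq2 : q * (u + 1) ≤ h0 E 1 - 1 := by
    rw [hq]
    exact Nat.div_mul_le_self _ _
  have hq3 : h0 E 1 - 1 < (q + 1) * (u + 1) := by
    rw [hq]
    exact Nat.lt_mul_of_div_lt (Nat.lt_succ_self _) (by omega)
  obtain ⟨m, rfl⟩ : ∃ m, q = m + 1 := ⟨q - 1, by omega⟩
  have hst : ¬ StarT E m := hmov m (by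
    have : (m + 1) * u ≤ (m + 1) * (u + 1) := Nat.mul_le_mul_left _ (by omega)
    omega)
  -- `x ≤ B (m + 1)`
  have hxB : x ≤ B * (m + 1) := by
    have g1 : h0 E 1 ≤ 2 * ((m + 1) * (u + 1)) := by
      have : (m + 1 + 1) * (u + 1) ≤ 2 * ((m + 1) * (u + 1)) := by nlinarith
      omega
    have g2 : (h0 E 1 : ℝ) ≤ 2 * ((m + 1) * (u + 1)) := by exact_mod_cast g1
    rw [hB, div_mul_eq_mul_div, le_div_iff₀ hcc]
    linarith
  refine ⟨E, m, hst, ?_, ?_⟩
  · refine hAE.trans ?_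
    have g1 : M * x ≤ |M| * x := mul_le_mul_of_nonneg_right (le_abs_self _) hx0.le
    have g2 : |M| * x ≤ |M| * (B * (m + 1)) := mul_le_mul_of_nonneg_left hxB (abs_nonneg _)
    linarith
  · refine hyE.trans ?_
    have g2 : ε / B * x ≤ ε / B * (B * (m + 1)) := mul_le_mul_of_nonneg_left hxB (by positivity)
    have g3 : ε / B * (B * (m + 1)) = ε * (m + 1) := by field_simp
    linarith

theorem pT_congr (ht : Tri T) {U V W W' : Cart X} (h : ∀ B B', T U B B' = T V B B') (hW : W = W') :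
    pT T G p U W = pT T G p V W' := by
  unfold pT
  exact Finset.sum_congr rfl fun i _ => by rw [ht.s12, h, ht.s12, hW]

theorem pz_congr (ht : Tri T) {U V : Cart X} (h : ∀ B B', T U B B' = T V B B') :
    pz T G p U = pz T G p V := by
  rw [pz_eq ht, pz_eq ht]
  exact Finset.sum_congr rfl fun i _ => by rw [pT_congr ht h rfl]

/-- **(EX) for `T(p,p,A) > 0`** -/
theorem pen_z [CharZero k] [T0Space X.P] (h : Hyp X) (hr : RR T l c) {ρ : ℕ}
    (ν : Cart X →* Multiplicative (Fin ρ → ℤ)) (hν : ∀ D, ν D = 1 → NumZ D) (hp : Rn G p A) (h3 : p3 T G p = 0)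
    (hz : 0 < pz T G p A) (u : ℕ) {cc M : ℝ} (hcc : 0 < cc)
    (h1 : ∀ ε x₀ : ℝ, 0 < ε → ∃ (E : Cart X) (x : ℝ), x₀ ≤ x ∧ Mov E u ∧ cc * x ≤ h0 E 1 ∧ T A A E ≤ M * x ∧
      pz T G p E ≤ ε * x) : Pen T G p := by
  obtain ⟨C, hC, h0⟩ := ex_mov h hr ν hν hp.hA (y := pz T G p) (pz_mul hr.tri) (fun E hE => pz_eff h hr hp hE)
    (fun U V hUV => pz_congr hr.tri hUV) u hcc h1
  refine ⟨C, hC, h0, le_antisymm (hdg_z h hr hp h3 hz h0) ?_⟩
  exact pT_lim hr.tri hp fun W hW => nn_G h hr hC hW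

/-- `T(p,A,S) = 0` gives `T(p,U,S) = 0` for all `U` if `S` is effective -/
theorem pT_zero [CharZero k] [T0Space X.P] (h : Hyp X) (hr : RR T l c) (hp : Rn G p A) {S : Cart X}
    (hS : Effective S) (h0 : pT T G p A S = 0) (U : Cart X) : pT T G p U S = 0 := by
  have ht := hr.tri
  have key : ∀ B : Cart X, Ample B → pT T G p B S = 0 := by
    intro B hB
    refine le_antisymm ?_ (pT_eff h hr hp hB hS)
    obtain ⟨n, hn⟩ := exists_amp h.var hp.hA B⁻¹
    have h1 := pT_eff h hr hp (hn n le_rfl) hS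
    have h2 : pT T G p (A ^ n * B⁻¹) S = n * pT T G p A S - pT T G p B S := by
      rw [pT_mul ht, pT_pow ht, ← zpow_neg_one, pT_zpow ht]
      push_cast
      ring
    rw [h2, h0, mul_zero] at h1
    linarith
  obtain ⟨n, hn⟩ := exists_amp h.var hp.hA U
  have h1 := key _ (hn n le_rfl)
  rw [pT_mul ht, pT_pow ht, h0, mul_zero, zero_add] at h1
  exact h1

/-- **(EX) with the functional `T(p,A,.)`** -/
theorem pen_t [CharZero k] [T0Space X.P] (h : Hyp X) (hr : RR T l c) {ρ : ℕ}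
    (ν : Cart X →* Multiplicative (Fin ρ → ℤ)) (hν : ∀ D, ν D = 1 → NumZ D) (hp : Rn G p A) (u : ℕ) {cc M : ℝ}
    (hcc : 0 < cc)
    (h1 : ∀ ε x₀ : ℝ, 0 < ε → ∃ (E : Cart X) (x : ℝ), x₀ ≤ x ∧ Mov E u ∧ cc * x ≤ h0 E 1 ∧ T A A E ≤ M * x ∧
      pT T G p A E ≤ ε * x) : Pen T G p := by
  have ht := hr.tri
  obtain ⟨C, hC, h0⟩ := ex_mov h hr ν hν hp.hA (y := pT T G p A)
    (fun U V => by rw [pT_comm ht, pT_mul ht, pT_comm ht U, pT_comm ht V])
    (fun E hE => pT_eff h hr hp hp.hA hE)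
    (fun U V hUV => by rw [pT_comm ht A U, pT_comm ht A V]; exact pT_congr ht hUV rfl) u hcc h1
  obtain ⟨P, hP, hS⟩ := hC.prm
  have h2 := pT_zero h hr hp (hS 0).eff h0
  refine ⟨C, hC, ?_, h2 _⟩
  unfold pz
  exact Finset.sum_eq_zero fun i _ => by rw [h2, mul_zero]

end Pool.Agent.H36.TZ
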