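import Pool.Agent.H24.VP.T4
import Pool.Agent.H24.VP.Hda2
import Pool.Agent.H36.TU.VC

/-!
# [H36 TZ Ub] THEOREM Z (MP_e49dc9_ag): the number of sections from above

`ub_s`: on the generic surface in the linear system of `H`: `h0 (ψ V) ≤ (T(V,H,H) + c₁) ^ 2 / (2 T(H,H,H))` (generic curves, induction on
`T(V,H,H)`; `h0 = 0` if `T(V,H,H) < 0`).  `ub_H`: `h0 W ≤ (T(W,H,H) + c₂) ^ 3 / (6 T(H,H,H) ^ 2)` if `T(W,H,H) ≥ 0`, and `h0 W = 0` otherwise.
`ub_A`: the same for every ample `A`.  `vol_ub`: `vol D ≤ T(D,A,A) ^ 3 / (6 T(A,A,A) ^ 2)`.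
-/

set_option autoImplicit false

namespace Pool.Agent.H36.TZ

open Pool.Agent.H54.RV Pool.Agent.H83.TU Pool.Agent.H83.TK Pool.Agent.H24.VP Pool.Agent.H24.TK Pool.Agent.H41.TK

section Surf

variable {k K : Type} [Field k] [Field K] [Algebra k K] {X : Mod k K}
  {T : Cart X → Cart X → Cart X → ℝ} {l : Cart X → ℝ} {c : ℝ} {H : Cart X} {k' L : Type} [Field k'] [Field L]
  [Algebra k' L] {S : Mod k' L} {ψ : Cart X →* Cart S}

theorem ub_s (hr : RR T l c) (hS : Sf H S ψ) :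
    ∃ c₁ : ℝ, 0 ≤ c₁ ∧ ∀ V : Cart X, (h0 (ψ V) 1 : ℝ) ≤ (T V H H + c₁) ^ 2 / (2 * T H H H) := by
  obtain ⟨hT, m, k₂, K₂, i1, i2, i3, i4, C, φ, hm, hC, hφ, hle, hdg, hch⟩ := crv_num hr hS
  have ht := hr.tri
  obtain ⟨κ, hκ⟩ : ∃ κ, κ = T H H H := ⟨_, rfl⟩
  obtain ⟨g, hg⟩ : ∃ g : ℝ, g = (h0 (1 : Cart C) 1 : ℕ) := ⟨_, rfl⟩
  have hm1 : (1 : ℝ) ≤ m := by exact_mod_cast hm
  have hg0 : 0 ≤ g := by rw [hg]; exact Nat.cast_nonneg _
  rw [← hκ] at hT ⊢
  refine ⟨m * κ / 2 + g / m, by positivity, ?_⟩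
  obtain ⟨c₁, hc₁⟩ : ∃ c₁, c₁ = m * κ / 2 + g / m := ⟨_, rfl⟩
  rw [← hc₁]
  have hc0 : m * c₁ = (m : ℝ) ^ 2 * κ / 2 + g := by
    rw [hc₁]
    field_simp
  have key : ∀ (n : ℕ) (V : Cart X), T V H H < n * (m * κ) → (h0 (ψ V) 1 : ℝ) ≤ (T V H H + c₁) ^ 2 / (2 * κ) := by
    intro n
    induction n with
    | zero =>
      intro V hV
      have h1 : h0 (ψ V) 1 = 0 := by
        by_contra h2
        have h3 := h0_nn hr hS V (Nat.pos_of_ne_zero h2)
        simp only [Nat.cast_zero, zero_mul] at hV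
        linarith
      rw [h1, Nat.cast_zero]
      positivity
    | succ n ih =>
      intro V hV
      rcases lt_or_ge (T V H H) 0 with hneg | hnn
      · have h1 : h0 (ψ V) 1 = 0 := by
          by_contra h2
          have h3 := h0_nn hr hS V (Nat.pos_of_ne_zero h2)
          linarith
        rw [h1, Nat.cast_zero]
        positivity
      · have h1 : T (V * (H ^ m)⁻¹) H H = T V H H - m * κ := by
          rw [ht.add, ht.inv, ht.pow, ← hκ]
          ring
        have h2 := ih (V * (H ^ m)⁻¹) (by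
          rw [h1]
          push_cast at hV
          linarith)
        rw [h1] at h2
        have h3 := hle V
        have h4 := hdg V
        have h5 : 0 ≤ dg (φ V) := by
          have : (0 : ℝ) ≤ (dg (φ V) : ℝ) := by
            rw [h4]
            positivity
          exact_mod_cast this
        have h6 := h0_le_dg hC (φ V) h5
        have h7 : (h0 (φ V) 1 : ℝ) ≤ m * T V H H + g := by
          rw [← h4, hg]
          exact_mod_cast h6
        have h8 : (h0 (ψ V) 1 : ℝ) ≤ h0 (ψ (V * (H ^ m)⁻¹)) 1 + h0 (φ V) 1 := by exact_mod_cast h3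
        have h9 : (T V H H + c₁) ^ 2 / (2 * κ) = (T V H H - m * κ + c₁) ^ 2 / (2 * κ) + (m * T V H H + m * c₁ - (m : ℝ) ^ 2 * κ / 2) := by
          field_simp
          ring
        rw [h9, hc0]
        linarith
  intro V
  obtain ⟨n, hn⟩ := exists_nat_gt (T V H H / (m * κ))
  rw [div_lt_iff₀ (by positivity)] at hn
  exact key n V hn

end Surf

variable {k K : Type} [Field k] [Field K] [Algebra k K] {X : Mod k K}
  {T : Cart X → Cart X → Cart X → ℝ} {l : Cart X → ℝ} {c : ℝ}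

/-- divisors with sections -/
theorem sec_nn [CharZero k] [T0Space X.P] (h : Hyp X) (hr : RR T l c) {A B : Cart X} (hA : Ample A) (hB : Ample B)
    {W : Cart X} (hW : 0 < h0 W 1) : 0 ≤ T W A B := by
  obtain ⟨f, hf, hf0⟩ : ∃ f : K, f ∈ secL W 1 ∧ f ≠ 0 := by
    by_contra hcon
    push Not at hcon
    have h1 : secL W 1 = ⊥ := by
      rw [eq_bot_iff]
      intro f hf
      rw [Submodule.mem_bot]
      exact hcon f hf
    unfold h0 at hW
    rw [h1, finrank_bot] at hW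
    exact lt_irrefl _ hW
  have hE : Effective (prin X f hf0 * W) := fun x => by
    have h1 := hf x
    rw [pow_one] at h1
    rw [mul_eq]
    exact h1
  have h1 := nn_eff h hr (fun _ hC => ample_mul h.var _ _ hC hA) hB hE
  have h2 : T A B (prin X f hf0 * W) = T W A B := by
    rw [hr.tri.add3]
    have h3 : T A B (prin X f hf0) = 0 := by
      rw [hr.tri.s23, hr.tri.s12]
      exact numz_T h hr (numz_prin f hf0) A B
    rw [h3, zero_add, hr.tri.s23, hr.tri.s12]
  rwa [h2] at h1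

theorem ub_A [CharZero k] [T0Space X.P] (h : Hyp X) (hr : RR T l c) {A : Cart X} (hA : Ample A) :
    ∃ c₃ : ℝ, 0 ≤ c₃ ∧ ∀ W : Cart X, 0 ≤ T W A A → (h0 W 1 : ℝ) ≤ (T W A A + c₃) ^ 3 / (6 * T A A A ^ 2) := by
  obtain ⟨m, k', L, i1, i2, i3, S, ψ, hm, hS⟩ := exists_sf h hA
  obtain ⟨c₁, hc1, hs⟩ := ub_s hr hS
  have ht := hr.tri
  obtain ⟨H, hH⟩ : ∃ H, H = A ^ m := ⟨_, rfl⟩
  rw [← hH] at hS hs
  have hHA : Ample H := hS.hH
  obtain ⟨κ, hκ⟩ : ∃ κ, κ = T H H H := ⟨_, rfl⟩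
  have hκ0 : 0 < κ := by rw [hκ]; exact pos_amp h hr hHA hHA hHA
  rw [← hκ] at hs
  obtain ⟨c₂, hc₂⟩ : ∃ c₂, c₂ = c₁ + κ := ⟨_, rfl⟩
  have hc20 : 0 ≤ c₂ := by rw [hc₂]; positivity
  have key : ∀ (n : ℕ) (W : Cart X), T W H H < n * κ → - κ ≤ T W H H → (h0 W 1 : ℝ) ≤ (T W H H + c₂) ^ 3 / (6 * κ ^ 2) := by
    intro n
    have hneg : ∀ W : Cart X, T W H H < 0 → - κ ≤ T W H H → (h0 W 1 : ℝ) ≤ (T W H H + c₂) ^ 3 / (6 * κ ^ 2) := by
      intro W h1 h2
      have h3 : h0 W 1 = 0 := by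
        by_contra h4
        have h5 := sec_nn h hr hHA hHA (Nat.pos_of_ne_zero h4)
        linarith
      rw [h3, Nat.cast_zero]
      have h4 : 0 ≤ T W H H + c₂ := by rw [hc₂]; linarith
      positivity
    induction n with
    | zero =>
      intro W h1 h2
      simp only [Nat.cast_zero, zero_mul] at h1
      exact hneg W h1 h2
    | succ n ih =>
      intro W h1 h2
      rcases lt_or_ge (T W H H) 0 with h3 | h3
      · exact hneg W h3 h2
      · have h4 : T (W * H⁻¹) H H = T W H H - κ := by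
          rw [ht.add, ht.inv, ← hκ]
          ring
        have h5 := ih (W * H⁻¹) (by
          rw [h4]
          push_cast at h1
          linarith) (by rw [h4]; linarith)
        rw [h4] at h5
        have h6 := hS.le W
        have h7 := hs W
        have h8 : (h0 W 1 : ℝ) ≤ h0 (W * H⁻¹) 1 + h0 (ψ W) 1 := by exact_mod_cast h6
        have h9 : (T W H H + c₂) ^ 3 / (6 * κ ^ 2) = (T W H H - κ + c₂) ^ 3 / (6 * κ ^ 2) +
            ((T W H H + c₁) ^ 2 / (2 * κ) + (T W H H + c₁) / 2 + κ / 6) := by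
          rw [hc₂]
          field_simp
          ring
        rw [h9]
        have h10 : 0 ≤ (T W H H + c₁) / 2 + κ / 6 := by positivity
        linarith
  have hm1 : (1 : ℝ) ≤ m := by exact_mod_cast hm
  have hκA : κ = (m : ℝ) ^ 3 * T A A A := by
    rw [hκ, hH, ht.pow, ht.pow2, ht.pow3]
    ring
  have hA3 : 0 < T A A A := pos_amp h hr hA hA hA
  refine ⟨c₂ / (m : ℝ) ^ 2, by positivity, fun W hW => ?_⟩
  have e1 : T W H H = (m : ℝ) ^ 2 * T W A A := by
    rw [hH, ht.pow2, ht.pow3]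
    ring
  have h1 : 0 ≤ T W H H := by rw [e1]; positivity
  obtain ⟨n, hn⟩ := exists_nat_gt (T W H H / κ)
  rw [div_lt_iff₀ hκ0] at hn
  have h2 := key n W hn (by linarith)
  refine h2.trans (le_of_eq ?_)
  rw [e1, hκA]
  have hm0 : (m : ℝ) ≠ 0 := by positivity
  field_simp

/-- the volume from above -/
theorem vol_ub [CharZero k] [T0Space X.P] (h : Hyp X) (hr : RR T l c) {A : Cart X} (hA : Ample A) (D : Cart X)
    (hD : 0 ≤ T D A A) : vol D ≤ T D A A ^ 3 / (6 * T A A A ^ 2) := by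
  obtain ⟨c₃, hc3, hub⟩ := ub_A h hr hA
  have hA3 : 0 < T A A A := pos_amp h hr hA hA hA
  have hlim : Filter.Tendsto (fun n : ℕ => (T D A A + c₃ / n) ^ 3 / (6 * T A A A ^ 2)) Filter.atTop
      (nhds (T D A A ^ 3 / (6 * T A A A ^ 2))) := by
    have h1 : Filter.Tendsto (fun n : ℕ => T D A A + c₃ / n) Filter.atTop (nhds (T D A A + 0)) :=
      tendsto_const_nhds.add (tendsto_const_div_atTop_nhds_zero_nat c₃)
    rw [add_zero] at h1
    exact (h1.pow 3).div_const _
  rw [← hlim.limsup_eq]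
  unfold vol
  refine Filter.limsup_le_limsup ?_ ?_ ?_
  · filter_upwards [Filter.eventually_ge_atTop 1] with n hn
    have hn0 : (0 : ℝ) < n := by exact_mod_cast hn
    have h1 : h0 D n = h0 (D ^ n) 1 := by
      unfold h0
      rw [secL_pow]
    have h2 := hub (D ^ n) (by rw [hr.tri.pow]; positivity)
    rw [h1, div_le_iff₀ (by positivity)]
    refine h2.trans (le_of_eq ?_)
    rw [hr.tri.pow]
    field_simp
  · exact Filter.isCoboundedUnder_le_of_le Filter.atTop (x := 0) fun n => by positivity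
  · exact hlim.isBoundedUnder_le

end Pool.Agent.H36.TZ
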