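import Pool.Agent.H36.TQ.Cls

/-!
# [H36 TZ Def] THEOREM Z (MP_e49dc9_ag): real nef classes

`G i` divisors, `p i` real numbers: the real class `p = ∑ p i G i`.  `pT T G p U V = T(p,U,V)`, `pz T G p U = T(p,p,U)`, `p3 T G p = T(p,p,p)`.
`Rn G p A`: `A` is ample and `n p + C A + (bounded)` is ample: `p` is nef.  `Pen T G p`: the pencil: infinitely many numerically equal
prime surfaces `C i` with `T(p,p,C i) = 0` and `T(p,C i,C j) = 0`.
-/

set_option autoImplicit false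

namespace Pool.Agent.H36.TZ

open Pool.Agent.H54.RV Pool.Agent.H83.TU Pool.Agent.H83.TK Pool.Agent.H24.VP Pool.Agent.H39.TQ Pool.Agent.H36.TQ

variable {k K : Type} [Field k] [Field K] [Algebra k K] {X : Mod k K}

/-- `T(p,U,V)` -/
noncomputable def pT (T : Cart X → Cart X → Cart X → ℝ) {r : ℕ} (G : Fin r → Cart X) (p : Fin r → ℝ) (U V : Cart X) : ℝ :=
  ∑ i, p i * T (G i) U V

/-- `T(p,p,U)` -/
noncomputable def pz (T : Cart X → Cart X → Cart X → ℝ) {r : ℕ} (G : Fin r → Cart X) (p : Fin r → ℝ) (U : Cart X) : ℝ :=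
  ∑ i, p i * pT T G p (G i) U

/-- `T(p,p,p)` -/
noncomputable def p3 (T : Cart X → Cart X → Cart X → ℝ) {r : ℕ} (G : Fin r → Cart X) (p : Fin r → ℝ) : ℝ :=
  ∑ i, p i * pz T G p (G i)

/-- the class `p` is nef -/
structure Rn {r : ℕ} (G : Fin r → Cart X) (p : Fin r → ℝ) (A : Cart X) : Prop where
  hA : Ample A
  amp : ∃ C : ℕ, ∀ (n : ℕ) (m : Fin r → ℤ), (∀ i, |(m i : ℝ) - n * p i| ≤ 1) → Ample (A ^ C * ∏ i, G i ^ m i)

/-- infinitely many numerically equal prime surfaces -/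
def Pen (T : Cart X → Cart X → Cart X → ℝ) {r : ℕ} (G : Fin r → Cart X) (p : Fin r → ℝ) : Prop :=
  ∃ C : ℕ → Cart X, Pfam T C ∧ pz T G p (C 0) = 0 ∧ pT T G p (C 0) (C 0) = 0

variable {T : Cart X → Cart X → Cart X → ℝ} {l : Cart X → ℝ} {c : ℝ} {r : ℕ} {G : Fin r → Cart X} {p : Fin r → ℝ} {A : Cart X}

theorem pT_mul (ht : Tri T) (U V W : Cart X) : pT T G p (U * V) W = pT T G p U W + pT T G p V W := by
  unfold pT
  rw [← Finset.sum_add_distrib]
  exact Finset.sum_congr rfl fun i _ => by rw [ht.add2]; ring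

theorem pT_comm (ht : Tri T) (U V : Cart X) : pT T G p U V = pT T G p V U := by
  unfold pT
  exact Finset.sum_congr rfl fun i _ => by rw [ht.s23]

theorem pT_zpow (ht : Tri T) (U W : Cart X) (n : ℤ) : pT T G p (U ^ n) W = n * pT T G p U W := by
  unfold pT
  rw [Finset.mul_sum]
  exact Finset.sum_congr rfl fun i _ => by rw [ht.zpow2]; ring

theorem pT_pow (ht : Tri T) (U W : Cart X) (n : ℕ) : pT T G p (U ^ n) W = n * pT T G p U W := by
  unfold pT
  rw [Finset.mul_sum]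
  exact Finset.sum_congr rfl fun i _ => by rw [ht.pow2]; ring

theorem pT_prod (ht : Tri T) {ι : Type} (s : Finset ι) (F : ι → Cart X) (W : Cart X) :
    pT T G p (∏ i ∈ s, F i) W = ∑ i ∈ s, pT T G p (F i) W := by
  unfold pT
  rw [Finset.sum_comm]
  refine Finset.sum_congr rfl fun i _ => ?_
  rw [ht.prod2, Finset.mul_sum]

theorem pz_eq (ht : Tri T) (U : Cart X) : pz T G p U = ∑ i, p i * pT T G p U (G i) := by
  unfold pz
  exact Finset.sum_congr rfl fun i _ => by rw [pT_comm ht]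

theorem pz_mul (ht : Tri T) (U V : Cart X) : pz T G p (U * V) = pz T G p U + pz T G p V := by
  rw [pz_eq ht, pz_eq ht, pz_eq ht, ← Finset.sum_add_distrib]
  exact Finset.sum_congr rfl fun i _ => by rw [pT_mul ht]; ring

theorem pz_zpow (ht : Tri T) (U : Cart X) (n : ℤ) : pz T G p (U ^ n) = n * pz T G p U := by
  rw [pz_eq ht, pz_eq ht, Finset.mul_sum]
  exact Finset.sum_congr rfl fun i _ => by rw [pT_zpow ht]; ring

theorem pz_pow (ht : Tri T) (U : Cart X) (n : ℕ) : pz T G p (U ^ n) = n * pz T G p U := by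
  rw [pz_eq ht, pz_eq ht, Finset.mul_sum]
  exact Finset.sum_congr rfl fun i _ => by rw [pT_pow ht]; ring

theorem pz_prod (ht : Tri T) {ι : Type} (s : Finset ι) (F : ι → Cart X) :
    pz T G p (∏ i ∈ s, F i) = ∑ i ∈ s, pz T G p (F i) := by
  rw [pz_eq ht]
  simp only [pT_prod ht, Finset.mul_sum]
  rw [Finset.sum_comm]
  exact Finset.sum_congr rfl fun i _ => (pz_eq ht _).symm

/-- `T(W,U,V)` for `W = A ^ C * ∏ G i ^ m i` -/
theorem W_T (ht : Tri T) (C : ℕ) (m : Fin r → ℤ) (x : ℝ) (U V : Cart X) :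
    T (A ^ C * ∏ i, G i ^ m i) U V = x * pT T G p U V + (C * T A U V + ∑ i, ((m i : ℝ) - x * p i) * T (G i) U V) := by
  rw [ht.add, ht.pow, ht.prod]
  simp only [ht.zpow]
  unfold pT
  rw [Finset.mul_sum]
  have e : ∑ i, ((m i : ℝ) - x * p i) * T (G i) U V = ∑ i, (m i : ℝ) * T (G i) U V - ∑ i, x * (p i * T (G i) U V) := by
    rw [← Finset.sum_sub_distrib]
    exact Finset.sum_congr rfl fun i _ => by ring
  rw [e]
  ring

/-- `T(p,W,U)` for `W = A ^ C * ∏ G i ^ m i` -/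
theorem W_pT (ht : Tri T) (C : ℕ) (m : Fin r → ℤ) (x : ℝ) (U : Cart X) :
    pT T G p (A ^ C * ∏ i, G i ^ m i) U =
      x * pz T G p U + (C * pT T G p A U + ∑ i, ((m i : ℝ) - x * p i) * pT T G p (G i) U) := by
  rw [pT_mul ht, pT_pow ht, pT_prod ht]
  simp only [pT_zpow ht]
  unfold pz
  rw [Finset.mul_sum]
  have e : ∑ i, ((m i : ℝ) - x * p i) * pT T G p (G i) U =
      ∑ i, (m i : ℝ) * pT T G p (G i) U - ∑ i, x * (p i * pT T G p (G i) U) := by
    rw [← Finset.sum_sub_distrib]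
    exact Finset.sum_congr rfl fun i _ => by ring
  rw [e]
  ring

/-- `T(p,p,W)` for `W = A ^ C * ∏ G i ^ m i` -/
theorem W_pz (ht : Tri T) (C : ℕ) (m : Fin r → ℤ) (x : ℝ) :
    pz T G p (A ^ C * ∏ i, G i ^ m i) =
      x * p3 T G p + (C * pz T G p A + ∑ i, ((m i : ℝ) - x * p i) * pz T G p (G i)) := by
  rw [pz_mul ht, pz_pow ht, pz_prod ht]
  simp only [pz_zpow ht]
  unfold p3
  rw [Finset.mul_sum]
  have e : ∑ i, ((m i : ℝ) - x * p i) * pz T G p (G i) =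
      ∑ i, (m i : ℝ) * pz T G p (G i) - ∑ i, x * (p i * pz T G p (G i)) := by
    rw [← Finset.sum_sub_distrib]
    exact Finset.sum_congr rfl fun i _ => by ring
  rw [e]
  ring

/-- bounded errors -/
theorem err_le {m : Fin r → ℤ} {x : ℝ} (hm : ∀ i, |(m i : ℝ) - x * p i| ≤ 1) (F : Fin r → ℝ) :
    |∑ i, ((m i : ℝ) - x * p i) * F i| ≤ ∑ i, |F i| := by
  refine (Finset.abs_sum_le_sum_abs _ _).trans (Finset.sum_le_sum fun i _ => ?_)
  rw [abs_mul]
  exact mul_le_of_le_one_left (abs_nonneg _) (hm i)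

theorem exists_m (p : Fin r → ℝ) (n : ℕ) : ∃ m : Fin r → ℤ, ∀ i, |(m i : ℝ) - n * p i| ≤ 1 :=
  ⟨fun i => ⌊n * p i⌋, fun i => by
    rw [abs_le]
    constructor
    · have := Int.lt_floor_add_one (n * p i)
      linarith
    · have := Int.floor_le (n * p i)
      linarith⟩

theorem Rn.more (hX : IsVar X) (h : Rn G p A) : ∃ C₀ : ℕ, ∀ C ≥ C₀, ∀ (n : ℕ) (m : Fin r → ℤ),
    (∀ i, |(m i : ℝ) - n * p i| ≤ 1) → Ample (A ^ C * ∏ i, G i ^ m i) := by
  obtain ⟨C₀, h0⟩ := h.amp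
  refine ⟨C₀, fun C hC n m hm => ?_⟩
  obtain ⟨j, rfl⟩ : ∃ j, C = j + C₀ := ⟨C - C₀, by omega⟩
  rcases Nat.eq_zero_or_pos j with h1 | h1
  · rw [h1, zero_add]
    exact h0 n m hm
  · rw [pow_add, mul_assoc]
    exact ample_mul hX _ _ (ample_pow A j h1 h.hA) (h0 n m hm)

theorem lin_lim {x y : ℝ} (h : ∀ n : ℕ, 0 ≤ n * x + y) : 0 ≤ x := by
  by_contra hx
  push Not at hx
  obtain ⟨n, hn⟩ := exists_nat_gt (y / -x)
  rw [div_lt_iff₀ (by linarith)] at hn
  have := h n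
  linarith

/-- the limit for `T(p,U,V)` -/
theorem pT_lim (ht : Tri T) (hp : Rn G p A) {U V : Cart X} (h : ∀ W, Ample W → 0 ≤ T W U V) :
    0 ≤ pT T G p U V := by
  obtain ⟨C, hC⟩ := hp.amp
  refine lin_lim (y := C * T A U V + ∑ i, |T (G i) U V|) fun n => ?_
  obtain ⟨m, hm⟩ := exists_m p n
  have h1 := h _ (hC n m hm)
  rw [W_T (p := p) ht C m n] at h1
  have h2 := (abs_le.1 (err_le hm fun i => T (G i) U V)).2
  linarith

theorem pT_amp [CharZero k] [T0Space X.P] (h : Hyp X) (hr : RR T l c) (hp : Rn G p A) {U V : Cart X}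
    (hU : Ample U) (hV : Ample V) : 0 ≤ pT T G p U V :=
  pT_lim hr.tri hp fun _ hW => (pos_amp h hr hW hU hV).le

theorem pT_eff [CharZero k] [T0Space X.P] (h : Hyp X) (hr : RR T l c) (hp : Rn G p A) {U E : Cart X}
    (hU : Ample U) (hE : Effective E) : 0 ≤ pT T G p U E :=
  pT_lim hr.tri hp fun _ hW => nn_eff h hr (nf_ample h.var hW) hU hE

/-- the limit for `T(p,p,U)` -/
theorem pz_lim (ht : Tri T) (hp : Rn G p A) {U : Cart X} (h : ∀ W, Ample W → 0 ≤ pT T G p W U) :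
    0 ≤ pz T G p U := by
  obtain ⟨C, hC⟩ := hp.amp
  refine lin_lim (y := C * pT T G p A U + ∑ i, |pT T G p (G i) U|) fun n => ?_
  obtain ⟨m, hm⟩ := exists_m p n
  have h1 := h _ (hC n m hm)
  rw [W_pT (p := p) ht C m n] at h1
  have h2 := (abs_le.1 (err_le hm fun i => pT T G p (G i) U)).2
  linarith

theorem pz_amp [CharZero k] [T0Space X.P] (h : Hyp X) (hr : RR T l c) (hp : Rn G p A) {U : Cart X}
    (hU : Ample U) : 0 ≤ pz T G p U :=
  pz_lim hr.tri hp fun _ hW => pT_amp h hr hp hW hU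

theorem pz_eff [CharZero k] [T0Space X.P] (h : Hyp X) (hr : RR T l c) (hp : Rn G p A) {E : Cart X}
    (hE : Effective E) : 0 ≤ pz T G p E :=
  pz_lim hr.tri hp fun _ hW => pT_eff h hr hp hW hE

end Pool.Agent.H36.TZ
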