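import Pool.Agent.H36.TZ.Cur
import Pool.Agent.H89.ZN.Asm

/-!
# [H36 TZ FldC] THEOREM Z (MP_e49dc9_ag): the hypothesis `FldC` of `z_pos`
-/

set_option autoImplicit false

namespace Pool.Agent.H36.TZ

open Pool.Agent.H54.RV Pool.Agent.H83.TU Pool.Agent.H83.TK Pool.Agent.H24.VP Pool.Agent.H39.TQ Pool.Agent.H89.ZN Filter

variable {k K : Type} [Field k] [Field K] [Algebra k K] {X : Mod k K}
  {T : Cart X → Cart X → Cart X → ℝ} {l : Cart X → ℝ} {c : ℝ} {r : ℕ} {G : Fin r → Cart X} {p : Fin r → ℝ} {A : Cart X}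

theorem fldC_all [CharZero k] [T0Space X.P] (h : Hyp X) (hr : RR T l c) (hp : Rn G p A) (h3 : p3 T G p = 0)
    (ha : 0 < pz T G p A) (F : IntermediateField k K) (hF : Algebra.trdeg F K = 1) : FldC h.var h.gen T G p F := by
  intro n t C htt hn hz hzC hev
  refine fld_cur h hr hp h3 ha (rfun_rf h.var h.gen (uf_all h.var) F hF) (B := 1) (C := C) zero_le_one fun M => ?_
  obtain ⟨j, hj1, hj2⟩ := ((hev M).and (htt.eventually_ge_atTop 1)).exists
  exact ⟨n j, t j, hj2, hn j, hz j, hzC j, hj1⟩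

end Pool.Agent.H36.TZ
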