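import Pool.Agent.H36.TZ.Def
import Pool.Agent.H24.VP.Hda2
import Pool.Agent.H36.TQ.Exc

/-!
# [H36 TZ Hp] THEOREM Z (MP_e49dc9_ag): Hodge index at a real nef class `p`

`hdg_p`: `T(p,L,L) T(p,E,E) ≤ T(p,L,E) ^ 2` if `T(p,L,L) > 0` (limit of the Hodge index theorem for the ample
`W n = n p + (bounded)`).  `hdg_z`: if `T(p,p,p) = 0`, `T(p,p,A) > 0` and `T(p,p,S) = 0`, then `T(p,S,S) ≤ 0` (`L = W n`:
`T(p,W n,W n) ≥ 2 n T(p,p,A) - K`, `T(p,W n,S)` is bounded).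
-/

set_option autoImplicit false

namespace Pool.Agent.H36.TZ

open Pool.Agent.H54.RV Pool.Agent.H83.TU Pool.Agent.H83.TK Pool.Agent.H24.VP Pool.Agent.H39.TQ Pool.Agent.H36.TQ

variable {k K : Type} [Field k] [Field K] [Algebra k K] {X : Mod k K}
  {T : Cart X → Cart X → Cart X → ℝ} {l : Cart X → ℝ} {c : ℝ} {r : ℕ} {G : Fin r → Cart X} {p : Fin r → ℝ} {A : Cart X}

theorem quad_lim {a b c M : ℝ} {n₀ : ℕ} (h : ∀ n : ℕ, n₀ ≤ n → ∃ e₁ e₂ e₃ : ℝ, |e₁| ≤ M ∧ |e₂| ≤ M ∧ |e₃| ≤ M ∧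
    (n * a + e₁) * (n * b + e₂) ≤ (n * c + e₃) ^ 2) : a * b ≤ c ^ 2 := by
  by_contra hcon
  push Not at hcon
  have hd : 0 < a * b - c ^ 2 := by linarith
  obtain ⟨K', hK⟩ : ∃ K', K' = M * (|a| + |b| + 2 * |c|) + 2 * M ^ 2 := ⟨_, rfl⟩
  obtain ⟨n, hn⟩ := exists_nat_gt (max (max 1 (n₀ : ℝ)) (K' / (a * b - c ^ 2)))
  have hn1 : (1 : ℝ) < n := ((le_max_left _ _).trans (le_max_left _ _)).trans_lt hn
  have hn2 : (n₀ : ℝ) < n := ((le_max_right _ _).trans (le_max_left _ _)).trans_lt hn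
  have hn3 := (le_max_right _ _).trans_lt hn
  rw [div_lt_iff₀ hd] at hn3
  obtain ⟨e₁, e₂, e₃, h1, h2, h3, h4⟩ := h n (by exact_mod_cast hn2.le)
  have hM : 0 ≤ M := (abs_nonneg _).trans h1
  have k1 : -(M * |b|) ≤ e₁ * b := by
    have : |e₁ * b| ≤ M * |b| := by rw [abs_mul]; exact mul_le_mul_of_nonneg_right h1 (abs_nonneg _)
    linarith [neg_abs_le (e₁ * b)]
  have k2 : -(M * |a|) ≤ a * e₂ := by
    have : |a * e₂| ≤ M * |a| := by rw [abs_mul, mul_comm]; exact mul_le_mul_of_nonneg_right h2 (abs_nonneg _)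
    linarith [neg_abs_le (a * e₂)]
  have k3 : c * e₃ ≤ M * |c| := by
    have : |c * e₃| ≤ M * |c| := by rw [abs_mul, mul_comm]; exact mul_le_mul_of_nonneg_right h3 (abs_nonneg _)
    linarith [le_abs_self (c * e₃)]
  have k4 : -(M ^ 2) ≤ e₁ * e₂ := by
    have : |e₁ * e₂| ≤ M * M := by rw [abs_mul]; exact mul_le_mul h1 h2 (abs_nonneg _) hM
    linarith [neg_abs_le (e₁ * e₂), sq M]
  have k5 : e₃ ^ 2 ≤ M ^ 2 := by
    rw [← sq_abs]
    exact pow_le_pow_left₀ (abs_nonneg _) h3 2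
  have k6 : (n : ℝ) ^ 2 * (a * b - c ^ 2) ≤ n * (M * (|a| + |b| + 2 * |c|)) + 2 * M ^ 2 := by
    have e : (n * a + e₁) * (n * b + e₂) = (n : ℝ) ^ 2 * (a * b) + n * (e₁ * b + a * e₂) + e₁ * e₂ := by ring
    have e' : (n * c + e₃) ^ 2 = (n : ℝ) ^ 2 * c ^ 2 + 2 * n * (c * e₃) + e₃ ^ 2 := by ring
    rw [e, e'] at h4
    have m1 : n * (-(M * |b|) + -(M * |a|)) ≤ n * (e₁ * b + a * e₂) :=
      mul_le_mul_of_nonneg_left (by linarith) (by linarith)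
    have m2 : 2 * n * (c * e₃) ≤ 2 * n * (M * |c|) := mul_le_mul_of_nonneg_left k3 (by linarith)
    nlinarith
  have k7 : n * (M * (|a| + |b| + 2 * |c|)) + 2 * M ^ 2 ≤ n * K' := by
    rw [hK]
    have : 2 * M ^ 2 ≤ n * (2 * M ^ 2) := le_mul_of_one_le_left (by positivity) hn1.le
    linarith
  have k8 : n * K' < n * (n * (a * b - c ^ 2)) := mul_lt_mul_of_pos_left hn3 (by linarith)
  nlinarith

/-- **Hodge index at `p`** -/
theorem hdg_p [CharZero k] [T0Space X.P] (h : Hyp X) (hr : RR T l c) (hp : Rn G p A) {L : Cart X} (E : Cart X)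
    (hL : 0 < pT T G p L L) : pT T G p L L * pT T G p E E ≤ pT T G p L E ^ 2 := by
  have ht := hr.tri
  obtain ⟨C, hC⟩ := hp.amp
  obtain ⟨B, hB⟩ : ∃ B : Cart X → Cart X → ℝ, ∀ U V, B U V = C * |T A U V| + ∑ i, |T (G i) U V| := ⟨_, fun _ _ => rfl⟩
  have hB0 : ∀ U V, 0 ≤ B U V := fun U V => by
    rw [hB]
    exact add_nonneg (by positivity) (Finset.sum_nonneg fun i _ => abs_nonneg _)
  obtain ⟨M, hM⟩ : ∃ M, M = B L L + B E E + B L E := ⟨_, rfl⟩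
  obtain ⟨n₀, hn₀⟩ := exists_nat_gt (B L L / pT T G p L L)
  rw [div_lt_iff₀ hL] at hn₀
  apply quad_lim (M := M) (n₀ := n₀)
  intro n hn
  obtain ⟨m, hm⟩ := exists_m p n
  have hW := hC n m hm
  obtain ⟨err, herr⟩ : ∃ err : Cart X → Cart X → ℝ, ∀ U V, err U V =
      C * T A U V + ∑ i, ((m i : ℝ) - n * p i) * T (G i) U V := ⟨_, fun _ _ => rfl⟩
  have herr1 : ∀ U V, |err U V| ≤ B U V := by
    intro U V
    rw [herr, hB]
    refine (abs_add_le _ _).trans (add_le_add ?_ (err_le hm _))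
    rw [abs_mul, abs_of_nonneg (Nat.cast_nonneg C)]
  have hWT : ∀ U V, T (A ^ C * ∏ i, G i ^ m i) U V = n * pT T G p U V + err U V := by
    intro U V
    rw [herr]
    exact W_T ht C m n U V
  have hpos : 0 < T (A ^ C * ∏ i, G i ^ m i) L L := by
    rw [hWT]
    have h1 := (abs_le.1 (herr1 L L)).1
    have h2 : (n₀ : ℝ) * pT T G p L L ≤ n * pT T G p L L :=
      mul_le_mul_of_nonneg_right (by exact_mod_cast hn) hL.le
    linarith
  have h1 := hdg_L ht (t_int hr h.amp) (pos_amp h hr hW hW hW) (fun E hE => hdg_amp h hr hW E hE) L E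
    (by rw [tri_rot ht]; exact hpos)
  rw [tri_rot ht L L, tri_rot ht E E, tri_rot ht L E, hWT, hWT, hWT] at h1
  refine ⟨err L L, err E E, err L E, ?_, ?_, ?_, h1⟩
  · rw [hM]; linarith [herr1 L L, hB0 E E, hB0 L E]
  · rw [hM]; linarith [herr1 E E, hB0 L L, hB0 L E]
  · rw [hM]; linarith [herr1 L E, hB0 L L, hB0 E E]

theorem hdg_z [CharZero k] [T0Space X.P] (h : Hyp X) (hr : RR T l c) (hp : Rn G p A) (h3 : p3 T G p = 0)
    (hz : 0 < pz T G p A) {S : Cart X} (hS : pz T G p S = 0) : pT T G p S S ≤ 0 := by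
  have ht := hr.tri
  obtain ⟨C₀, hC₀⟩ := hp.more h.var
  obtain ⟨C₁, hC₁⟩ := exists_nat_gt ((∑ i, |pz T G p (G i)|) / pz T G p A)
  rw [div_lt_iff₀ hz] at hC₁
  obtain ⟨C, hC⟩ : ∃ C, C = C₀ + C₁ + 1 := ⟨_, rfl⟩
  obtain ⟨B, hB⟩ : ∃ B : Cart X → ℝ, ∀ U, B U = C * |pT T G p A U| + ∑ i, |pT T G p (G i) U| := ⟨_, fun _ => rfl⟩
  have hB0 : ∀ U, 0 ≤ B U := fun U => by
    rw [hB]
    exact add_nonneg (by positivity) (Finset.sum_nonneg fun i _ => abs_nonneg _)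
  obtain ⟨M, hM⟩ : ∃ M, M = C * B A + ∑ i, B (G i) := ⟨_, rfl⟩
  have hM0 : 0 ≤ M := by rw [hM]; exact add_nonneg (mul_nonneg (Nat.cast_nonneg _) (hB0 _)) (Finset.sum_nonneg fun i _ => hB0 _)
  by_contra hcon
  push Not at hcon
  obtain ⟨x, hx⟩ : ∃ x, x = pT T G p S S := ⟨_, rfl⟩
  rw [← hx] at hcon
  obtain ⟨a, ha⟩ : ∃ a, a = pz T G p A := ⟨_, rfl⟩
  rw [← ha] at hz
  -- `(2 n a - M) x ≤ (B S) ^ 2`
  obtain ⟨n, hn⟩ := exists_nat_gt (((B S) ^ 2 / x + M) / a)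
  rw [div_lt_iff₀ hz] at hn
  have hn' : (B S) ^ 2 / x < n * a - M := by linarith
  rw [div_lt_iff₀ hcon] at hn'
  obtain ⟨m, hm⟩ := exists_m p n
  obtain ⟨W, hW⟩ : ∃ W, W = A ^ C * ∏ i, G i ^ m i := ⟨_, rfl⟩
  obtain ⟨err, herr⟩ : ∃ err : Cart X → ℝ, ∀ U, err U =
      C * pT T G p A U + ∑ i, ((m i : ℝ) - n * p i) * pT T G p (G i) U := ⟨_, fun _ => rfl⟩
  have herr1 : ∀ U, |err U| ≤ B U := by
    intro U
    rw [herr, hB]
    refine (abs_add_le _ _).trans (add_le_add ?_ (err_le hm _))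
    rw [abs_mul, abs_of_nonneg (Nat.cast_nonneg C)]
  have hWp : ∀ U, pT T G p W U = n * pz T G p U + err U := by
    intro U
    rw [herr, hW]
    exact W_pT ht C m n U
  obtain ⟨q, hq⟩ : ∃ q, q = C * pz T G p A + ∑ i, ((m i : ℝ) - n * p i) * pz T G p (G i) := ⟨_, rfl⟩
  have hq1 : a ≤ q := by
    rw [hq, ← ha]
    have h1 := (abs_le.1 (err_le hm fun i => pz T G p (G i))).1
    have h2 : (C : ℝ) * a = C₀ * a + C₁ * a + a := by rw [hC]; push_cast; ring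
    have h3 : 0 ≤ (C₀ : ℝ) * a := by positivity
    rw [← ha] at hC₁
    linarith
  have hpzW : pz T G p W = q := by
    rw [hW, W_pz ht C m n, h3, hq]
    ring
  obtain ⟨e', he'⟩ : ∃ e', e' = C * err A + ∑ i, ((m i : ℝ) - n * p i) * err (G i) := ⟨_, rfl⟩
  have he1 : |e'| ≤ M := by
    rw [he', hM]
    refine (abs_add_le _ _).trans (add_le_add ?_ ?_)
    · rw [abs_mul, abs_of_nonneg (Nat.cast_nonneg C)]
      exact mul_le_mul_of_nonneg_left (herr1 A) (Nat.cast_nonneg C)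
    · exact (err_le hm _).trans (Finset.sum_le_sum fun i _ => herr1 _)
  have hWW : pT T G p W W = 2 * n * q + e' := by
    rw [hWp, hpzW, herr, he', hq]
    simp only [pT_comm ht _ W, hWp]
    have e : ∑ i, ((m i : ℝ) - n * p i) * (n * pz T G p (G i) + err (G i)) =
        n * ∑ i, ((m i : ℝ) - n * p i) * pz T G p (G i) + ∑ i, ((m i : ℝ) - n * p i) * err (G i) := by
      rw [Finset.mul_sum, ← Finset.sum_add_distrib]
      exact Finset.sum_congr rfl fun i _ => by ring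
    rw [e]
    ring
  have hWS : pT T G p W S = err S := by
    rw [hWp, hS]
    ring
  have hn0 : 0 < (n : ℝ) * a - M := (pos_iff_pos_of_mul_pos (lt_of_le_of_lt (sq_nonneg _) hn')).2 hcon
  have hna : (n : ℝ) * a ≤ n * q := mul_le_mul_of_nonneg_left hq1 (Nat.cast_nonneg n)
  have he2 := (abs_le.1 he1).1
  have hnq0 : 0 ≤ (n : ℝ) * q := by
    have : 0 ≤ (n : ℝ) * a := by positivity
    linarith
  have hpos : 0 < pT T G p W W := by
    rw [hWW]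
    linarith
  have h1 := hdg_p h hr hp S hpos
  rw [hWS, hWW, ← hx] at h1
  have h2 : err S ^ 2 ≤ (B S) ^ 2 := by
    rw [← sq_abs]
    exact pow_le_pow_left₀ (abs_nonneg _) (herr1 S) 2
  have h4 : (n * a - M) * x ≤ (2 * n * q + e') * x := mul_le_mul_of_nonneg_right (by linarith) hcon.le
  linarith

end Pool.Agent.H36.TZ
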